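import Mathlib

/-!
# Every locally compact abelian group is the kernel of the ordinary representations
-/

set_option autoImplicit false

open Set Filter Topology

universe u

namespace Pool.Agent.Results.MP_607283_al.EveryAbelianIsKO

/-- The common kernel `KO(G)` of all ordinary representations of `G`, i.e. of all continuous
homomorphisms of `G` to a group `GL_n(ℂ)`. -/
def KO (G : Type u) [Group G] [TopologicalSpace G] : Subgroup G :=
  ⨅ (n : ℕ) (ρ : G →ₜ* Matrix.GeneralLinearGroup (Fin n) ℂ), ρ.toMonoidHom.ker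

variable (A : Type u) [AddCommGroup A]

/-- the discrete part -/
def DD : Type u := (ℕ →₀ ℤ) × (ℕ →₀ A)

noncomputable instance : AddCommGroup (DD A) := inferInstanceAs (AddCommGroup ((ℕ →₀ ℤ) × (ℕ →₀ A)))
instance : TopologicalSpace (DD A) := ⊥
instance : DiscreteTopology (DD A) := ⟨rfl⟩

variable {A}

/-- the pairing -/
noncomputable def om (n : ℕ →₀ ℤ) (b : ℕ →₀ A) : A := n.sum fun i k => k • b i

theorem om_add_left (n n' : ℕ →₀ ℤ) (b : ℕ →₀ A) : om (n + n') b = om n b + om n' b := by
  classical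
  unfold om
  exact Finsupp.sum_add_index' (fun _ => zero_smul _ _) (fun _ _ _ => add_smul _ _ _)

theorem om_add_right (n : ℕ →₀ ℤ) (b b' : ℕ →₀ A) : om n (b + b') = om n b + om n b' := by
  unfold om
  rw [← Finsupp.sum_add]
  refine Finsupp.sum_congr fun i _ => ?_
  rw [Finsupp.add_apply, smul_add]

theorem om_zero_left (b : ℕ →₀ A) : om 0 b = 0 := Finsupp.sum_zero_index

theorem om_zero_right (n : ℕ →₀ ℤ) : om n (0 : ℕ →₀ A) = 0 := by
  unfold om
  simp [Finsupp.sum]

theorem om_neg_left (n : ℕ →₀ ℤ) (b : ℕ →₀ A) : om (-n) b = -om n b := by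
  rw [eq_neg_iff_add_eq_zero, ← om_add_left, neg_add_cancel, om_zero_left]

theorem om_single (i : ℕ) (b : ℕ →₀ A) : om (Finsupp.single i 1) b = b i := by
  unfold om
  exact (Finsupp.sum_single_index (h := fun (i : ℕ) (k : ℤ) => k • b i) (zero_smul _ _)).trans
    (one_smul _ _)

variable (A)

/-- the group -/
def HG : Type u := A × DD A

variable {A}

instance [TopologicalSpace A] : TopologicalSpace (HG A) :=
  inferInstanceAs (TopologicalSpace (A × DD A))

noncomputable instance : Mul (HG A) := ⟨fun x y => (x.1 + y.1 + om x.2.1 y.2.2, x.2 + y.2)⟩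
noncomputable instance : One (HG A) := ⟨((0 : A), (0 : DD A))⟩
noncomputable instance : Inv (HG A) := ⟨fun x => (-x.1 + om x.2.1 x.2.2, -x.2)⟩

/-- elements of the group -/
def mk (a : A) (d : DD A) : HG A := (a, d)

theorem mk_mul (a a' : A) (d d' : DD A) : mk a d * mk a' d' = mk (a + a' + om d.1 d'.2) (d + d') := rfl
theorem one_def : (1 : HG A) = mk 0 0 := rfl
theorem mk_inv (a : A) (d : DD A) : (mk a d)⁻¹ = mk (-a + om d.1 d.2) (-d) := rfl
theorem mk_eq (x : HG A) : ∃ a d, x = mk a d := ⟨x.1, x.2, rfl⟩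
theorem mk_inj {a a' : A} {d d' : DD A} : mk a d = mk a' d' ↔ a = a' ∧ d = d' := Prod.ext_iff

noncomputable instance : Group (HG A) := Group.ofLeftAxioms
  (fun x y z => by
    obtain ⟨a, d, rfl⟩ := mk_eq x
    obtain ⟨a', d', rfl⟩ := mk_eq y
    obtain ⟨a'', d'', rfl⟩ := mk_eq z
    rw [mk_mul, mk_mul, mk_mul, mk_mul, mk_inj]
    refine ⟨?_, add_assoc _ _ _⟩
    have e1 : (d + d').1 = d.1 + d'.1 := rfl
    have e2 : (d' + d'').2 = d'.2 + d''.2 := rfl
    rw [e1, e2, om_add_left, om_add_right]
    abel)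
  (fun x => by
    obtain ⟨a, d, rfl⟩ := mk_eq x
    rw [one_def, mk_mul, mk_inj]
    refine ⟨?_, zero_add _⟩
    have e1 : (0 : DD A).1 = 0 := rfl
    rw [e1, om_zero_left, zero_add, add_zero])
  (fun x => by
    obtain ⟨a, d, rfl⟩ := mk_eq x
    rw [one_def, mk_inv, mk_mul, mk_inj]
    refine ⟨?_, neg_add_cancel _⟩
    have e1 : (-d).1 = -d.1 := rfl
    rw [e1, om_neg_left]
    abel)

/-- generators of the discrete part -/
noncomputable def dx (A : Type u) [AddCommGroup A] (i : ℕ) : DD A := (Finsupp.single i 1, 0)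
/-- generators of the discrete part -/
noncomputable def dy (i : ℕ) (a : A) : DD A := (0, Finsupp.single i a)

theorem dx1 (i : ℕ) : (dx A i).1 = Finsupp.single i 1 := rfl
theorem dx2 (i : ℕ) : (dx A i).2 = 0 := rfl
theorem dy1 (i : ℕ) (a : A) : (dy i a).1 = 0 := rfl
theorem dy2 (i : ℕ) (a : A) : (dy i a).2 = Finsupp.single i a := rfl

section top

variable [TopologicalSpace A] [IsTopologicalAddGroup A]

instance : IsTopologicalGroup (HG A) where
  continuous_mul := by
    have h1 : Continuous fun p : HG A × HG A => om p.1.2.1 p.2.2.2 :=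
      (continuous_of_discreteTopology (f := fun q : DD A × DD A => om q.1.1 q.2.2)).comp
        ((continuous_snd.comp continuous_fst).prodMk (continuous_snd.comp continuous_snd))
    have h2 : Continuous fun p : HG A × HG A => (p.1.2 + p.2.2 : DD A) :=
      (continuous_of_discreteTopology (f := fun q : DD A × DD A => q.1 + q.2)).comp
        ((continuous_snd.comp continuous_fst).prodMk (continuous_snd.comp continuous_snd))
    exact (((continuous_fst.comp continuous_fst).add (continuous_fst.comp continuous_snd)).add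
      h1).prodMk h2
  continuous_inv := by
    have h1 : Continuous fun p : HG A => om p.2.1 p.2.2 :=
      (continuous_of_discreteTopology (f := fun q : DD A => om q.1 q.2)).comp continuous_snd
    have h2 : Continuous fun p : HG A => (-p.2 : DD A) :=
      (continuous_of_discreteTopology (f := fun q : DD A => -q)).comp continuous_snd
    exact (continuous_fst.neg.add h1).prodMk h2

instance [T2Space A] : T2Space (HG A) := inferInstanceAs (T2Space (A × DD A))
instance [LocallyCompactSpace A] : LocallyCompactSpace (HG A) :=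
  inferInstanceAs (LocallyCompactSpace (A × DD A))

/-- the embedding -/
noncomputable def iota : Multiplicative A →* HG A where
  toFun a := mk (Multiplicative.toAdd a) 0
  map_one' := rfl
  map_mul' a b := by
    rw [mk_mul, mk_inj]
    refine ⟨?_, (add_zero _).symm⟩
    have e1 : (0 : DD A).1 = 0 := rfl
    rw [e1, om_zero_left, add_zero]
    rfl

theorem isOpenEmbedding_iota : IsOpenEmbedding (iota : Multiplicative A → HG A) := by
  have h1 : IsOpenEmbedding (fun a : A => ((a, (0 : DD A)) : A × DD A)) := by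
    refine IsOpenEmbedding.of_continuous_injective_isOpenMap (by fun_prop) ?_ ?_
    · intro a b h
      exact congrArg Prod.fst h
    · intro U hU
      have : (fun a : A => ((a, (0 : DD A)) : A × DD A)) '' U = U ×ˢ {0} := by
        ext ⟨a, d⟩
        simp only [mem_image, mem_prod, mem_singleton_iff, Prod.mk.injEq]
        constructor
        · rintro ⟨x, hx, rfl, rfl⟩
          exact ⟨hx, rfl⟩
        · rintro ⟨h, rfl⟩
          exact ⟨a, h, rfl, rfl⟩
      rw [this]
      exact hU.prod (isOpen_discrete _)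
  exact h1

/-- the character of `ℚ/ℤ` -/
noncomputable def expQ : ℚ →+ Additive ℂˣ where
  toFun q := Additive.ofMul (Units.mk0 (Complex.exp (2 * Real.pi * Complex.I * q)) (Complex.exp_ne_zero _))
  map_zero' := by
    apply Additive.toMul.injective
    apply Units.ext
    simp
  map_add' p q := by
    apply Additive.toMul.injective
    apply Units.ext
    simp only [toMul_ofMul, toMul_add, Units.val_mul, Units.val_mk0]
    rw [← Complex.exp_add]
    congr 1
    push_cast
    ring

theorem expQ_eq_zero {q : ℚ} (h : expQ q = 0) : ∃ n : ℤ, q = n := by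
  have h1 : Complex.exp (2 * Real.pi * Complex.I * q) = 1 := congrArg (fun x => (Additive.toMul x : ℂˣ).val) h
  rw [Complex.exp_eq_one_iff] at h1
  obtain ⟨n, hn⟩ := h1
  refine ⟨n, ?_⟩
  have h2 : (2 * Real.pi * Complex.I : ℂ) ≠ 0 := Complex.two_pi_I_ne_zero
  have h3 : (q : ℂ) = n := by
    apply mul_left_cancel₀ h2
    rw [hn]
    ring
  exact_mod_cast h3

theorem separate (d : DD A) (hd : d ≠ 0) : ∃ χ : DD A →+ Additive ℂˣ, χ d ≠ 0 := by
  obtain ⟨c, hc⟩ := CharacterModule.exists_character_apply_ne_zero_of_ne_zero hd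
  let e : AddCircle (1 : ℚ) →+ Additive ℂˣ := QuotientAddGroup.lift _ expQ (by
    intro q hq
    rw [AddSubgroup.mem_zmultiples_iff] at hq
    obtain ⟨n, rfl⟩ := hq
    apply Additive.toMul.injective
    apply Units.ext
    show Complex.exp (2 * Real.pi * Complex.I * ((n • (1 : ℚ) : ℚ) : ℂ)) = 1
    rw [Complex.exp_eq_one_iff]
    refine ⟨n, ?_⟩
    simp
    ring)
  refine ⟨e.comp c, fun h => hc ?_⟩
  have h1 : e (c d) = 0 := h
  obtain ⟨q, hq⟩ := QuotientAddGroup.mk_surjective (c d)
  rw [← hq] at h1 ⊢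
  have h2 : expQ q = 0 := h1
  obtain ⟨n, rfl⟩ := expQ_eq_zero h2
  rw [QuotientAddGroup.eq_zero_iff, AddSubgroup.mem_zmultiples_iff]
  exact ⟨n, by simp⟩

theorem mem_KO (a : A) : mk a 0 ∈ KO (HG A) := by
  classical
  rw [KO, Subgroup.mem_iInf]
  intro n
  rw [Subgroup.mem_iInf]
  intro ρ
  by_contra hne
  have hne' : ρ (mk a 0) ≠ 1 := hne
  -- the matrices
  let x : ℕ → HG A := fun i => mk 0 (dx A i)
  let y : ℕ → HG A := fun i => mk 0 (dy i a)
  have hxy : ∀ i j, i ≠ j → x i * y j = y j * x i := by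
    intro i j hij
    show mk _ _ * mk _ _ = mk _ _ * mk _ _
    rw [mk_mul, mk_mul, mk_inj]
    refine ⟨?_, add_comm _ _⟩
    rw [dx1, dy2, dy1, om_single, om_zero_left, Finsupp.single_eq_of_ne hij]
  have hxx : ∀ i, x i * y i = mk a 0 * (y i * x i) := by
    intro i
    show mk _ _ * mk _ _ = mk _ _ * (mk _ _ * mk _ _)
    rw [mk_mul, mk_mul, mk_mul, mk_inj]
    have e1 : (0 : DD A).1 = 0 := rfl
    refine ⟨?_, ?_⟩
    · rw [dx1, dy2, dy1, om_single, om_zero_left, e1, om_zero_left, Finsupp.single_eq_same]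
      abel
    · rw [zero_add]
      exact add_comm _ _
  obtain ⟨Z, hZ⟩ : ∃ Z : Matrix (Fin n) (Fin n) ℂ, Z = (ρ (mk a 0) : Matrix (Fin n) (Fin n) ℂ) :=
    ⟨_, rfl⟩
  have hZ1 : Z ≠ 1 := by
    intro h
    apply hne'
    apply Units.ext
    rw [← hZ, h]
    rfl
  let Y : ℕ → Matrix (Fin n) (Fin n) ℂ := fun i => (ρ (y i) : Matrix (Fin n) (Fin n) ℂ)
  let X : ℕ → Matrix (Fin n) (Fin n) ℂ := fun i => (ρ (x i) : Matrix (Fin n) (Fin n) ℂ)
  have hXY : ∀ i j, i ≠ j → X i * Y j = Y j * X i := by
    intro i j hij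
    have := congrArg (fun g => ((ρ g : Matrix.GeneralLinearGroup (Fin n) ℂ) :
      Matrix (Fin n) (Fin n) ℂ)) (hxy i j hij)
    simpa using this
  have hXX : ∀ i, X i * Y i = Z * (Y i * X i) := by
    intro i
    have := congrArg (fun g => ((ρ g : Matrix.GeneralLinearGroup (Fin n) ℂ) :
      Matrix (Fin n) (Fin n) ℂ)) (hxx i)
    rw [hZ]
    simpa using this
  have hunit : ∀ i, IsUnit (Y i * X i) := by
    intro i
    refine ⟨ρ (y i) * ρ (x i), ?_⟩
    simp [X, Y]
  have hli : LinearIndependent ℂ Y := by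
    rw [linearIndependent_iff']
    intro s g hs i hi
    have h1 : X i * ∑ j ∈ s, g j • Y j - (∑ j ∈ s, g j • Y j) * X i = 0 := by
      rw [hs, mul_zero, zero_mul, sub_zero]
    have h2 : X i * ∑ j ∈ s, g j • Y j - (∑ j ∈ s, g j • Y j) * X i =
        g i • ((Z - 1) * (Y i * X i)) := by
      rw [Finset.mul_sum, Finset.sum_mul, ← Finset.sum_sub_distrib]
      rw [Finset.sum_eq_single i]
      · rw [mul_smul_comm, smul_mul_assoc, ← smul_sub, hXX, sub_mul, one_mul]
      · intro j _ hj
        rw [mul_smul_comm, smul_mul_assoc, hXY i j (Ne.symm hj), sub_self]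
      · intro h
        exact absurd hi h
    rw [h2] at h1
    rcases smul_eq_zero.mp h1 with h3 | h3
    · exact h3
    · exfalso
      obtain ⟨w, hw⟩ := hunit i
      rw [← hw] at h3
      have h4 : Z - 1 = 0 := by
        have := congrArg (· * ((w⁻¹ : (Matrix (Fin n) (Fin n) ℂ)ˣ) : Matrix (Fin n) (Fin n) ℂ)) h3
        simpa [mul_assoc] using this
      exact hZ1 (sub_eq_zero.mp h4)
  have hfin := LinearIndependent.finite_of_isNoetherian hli
  exact (not_finite ℕ)

theorem not_mem_KO (a : A) (d : DD A) (hd : d ≠ 0) : mk a d ∉ KO (HG A) := by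
  intro h
  obtain ⟨χ, hχ⟩ := separate d hd
  let ρ0 : HG A →* Matrix.GeneralLinearGroup (Fin 1) ℂ :=
    { toFun := fun g => Units.map (Matrix.scalar (Fin 1)).toMonoidHom (Additive.toMul (χ g.2))
      map_one' := by
        have : (1 : HG A).2 = 0 := rfl
        rw [this, map_zero, toMul_zero, map_one]
      map_mul' := by
        intro g h
        have : (g * h).2 = g.2 + h.2 := rfl
        rw [this, map_add, toMul_add, map_mul] }
  let F : DD A → Matrix.GeneralLinearGroup (Fin 1) ℂ := fun d =>
    Units.map (Matrix.scalar (Fin 1)).toMonoidHom (Additive.toMul (χ d))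
  have hF : Continuous F := continuous_of_discreteTopology
  have h0 : Continuous (fun g : HG A => (g.2 : DD A)) := continuous_snd
  have hcont : Continuous ρ0 := hF.comp h0
  let ρ : HG A →ₜ* Matrix.GeneralLinearGroup (Fin 1) ℂ := ⟨ρ0, hcont⟩
  rw [KO, Subgroup.mem_iInf] at h
  have h1 := h 1
  rw [Subgroup.mem_iInf] at h1
  have h2 : ρ0 (mk a d) = 1 := h1 ρ
  apply hχ
  apply Additive.toMul.injective
  apply Units.ext
  have h3 := congrArg (fun g : Matrix.GeneralLinearGroup (Fin 1) ℂ =>
    (g : Matrix (Fin 1) (Fin 1) ℂ) 0 0) h2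
  have h4 : ((Additive.toMul (χ d) : ℂˣ) : ℂ) = 1 := by simpa [ρ0, mk] using h3
  rw [h4]
  rfl

theorem range_iota : (iota : Multiplicative A →* HG A).range = KO (HG A) := by
  ext g
  obtain ⟨a, d, rfl⟩ := mk_eq g
  constructor
  · rintro ⟨b, hb⟩
    have hb' : mk (Multiplicative.toAdd b) 0 = mk a d := hb
    rw [← hb']
    exact mem_KO _
  · intro h
    by_cases hd : d = 0
    · exact ⟨Multiplicative.ofAdd a, by rw [hd]; rfl⟩
    · exact absurd h (not_mem_KO a d hd)

theorem central (a : A) (g : HG A) : mk a 0 * g = g * mk a 0 := by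
  obtain ⟨b, d, rfl⟩ := mk_eq g
  rw [mk_mul, mk_mul, mk_inj]
  have e1 : (0 : DD A).1 = 0 := rfl
  have e2 : (0 : DD A).2 = 0 := rfl
  refine ⟨?_, add_comm _ _⟩
  rw [e1, e2, om_zero_left, om_zero_right, add_comm a b]

end top

/-- Every Hausdorff abelian topological group `A` is, as a topological group, the common kernel
`KO(G)` of the ordinary representations of a Hausdorff topological group `G` in which it is open
and central. If `A` is locally compact then so is `G`. -/
theorem result (A : Type u) [AddCommGroup A] [TopologicalSpace A] [IsTopologicalAddGroup A]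
    [T2Space A] :
    ∃ (G : Type u) (_ : Group G) (_ : TopologicalSpace G) (ι : Multiplicative A →* G),
      IsTopologicalGroup G ∧ T2Space G ∧ (LocallyCompactSpace A → LocallyCompactSpace G) ∧
      IsOpenEmbedding ι ∧ ι.range = KO G ∧ ι.range ≤ Subgroup.center G := by
  refine ⟨HG A, inferInstance, inferInstance, iota, inferInstance, inferInstance,
    fun _ => inferInstance, isOpenEmbedding_iota, range_iota, ?_⟩
  rintro _ ⟨a, rfl⟩
  rw [Subgroup.mem_center_iff]
  intro g
  exact (central _ g).symm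

end Pool.Agent.Results.MP_607283_al.EveryAbelianIsKO
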