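import Pool.Agent.Results.MP_607283_al.EveryAbelianIsKO

/-!
# Abelian pro-Lie groups as kernels of the ordinary representations of pro-Lie groups
-/

set_option autoImplicit false

open Set Filter Topology

universe u

namespace Pool.Agent.Results.MP_607283_al.ProLieKernels

open Pool.Agent.Results.MP_607283_al.EveryAbelianIsKO

/-- Completeness of a topological group: every left Cauchy filter converges. -/
def LeftComplete (G : Type u) [Group G] [TopologicalSpace G] : Prop :=
  ∀ F : Filter G, F.NeBot → (∀ U ∈ 𝓝 (1 : G), ∃ S ∈ F, ∀ x ∈ S, ∀ y ∈ S, x⁻¹ * y ∈ U) →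
    ∃ x, F ≤ 𝓝 x

/-- Lie groups (not assumed separable), as the Hausdorff topological groups in which a Euclidean
space embeds as an open subset. -/
def IsLieGroup (G : Type u) [Group G] [TopologicalSpace G] : Prop :=
  T2Space G ∧ ∃ (n : ℕ) (f : EuclideanSpace ℝ (Fin n) → G), IsOpenEmbedding f

/-- Pro-Lie groups: the complete Hausdorff groups in which every neighbourhood of the identity
contains a closed normal subgroup with a Lie quotient. -/
def IsProLie (G : Type u) [Group G] [TopologicalSpace G] : Prop :=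
  T2Space G ∧ LeftComplete G ∧ ∀ U ∈ 𝓝 (1 : G), ∃ (N : Subgroup G) (_ : N.Normal),
    IsClosed (N : Set G) ∧ (N : Set G) ⊆ U ∧ IsLieGroup (G ⧸ N)

variable {A : Type u} [AddCommGroup A] [TopologicalSpace A] [IsTopologicalAddGroup A]

theorem leftComplete (h : LeftComplete (Multiplicative A)) : LeftComplete (HG A) := by
  intro F hF hC
  -- the open subgroup `A`
  have h1 : range (iota : Multiplicative A → HG A) ∈ 𝓝 (1 : HG A) :=
    isOpenEmbedding_iota.isOpen_range.mem_nhds ⟨1, rfl⟩
  obtain ⟨S, hS, hS2⟩ := hC _ h1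
  obtain ⟨x0, hx0⟩ := hF.nonempty_of_mem hS
  have hsnd : ∀ y ∈ S, y.2 = x0.2 := by
    intro y hy
    obtain ⟨b, hb⟩ := hS2 x0 hx0 y hy
    have h2 : (x0⁻¹ * y).2 = 0 := by
      rw [← hb]
      rfl
    have h3 : (x0⁻¹ * y).2 = -x0.2 + y.2 := rfl
    rw [h3] at h2
    have h4 : y.2 = x0.2 := by
      rw [neg_add_eq_zero] at h2
      exact h2.symm
    exact h4
  have hfst : ∀ x ∈ S, ∀ y ∈ S, x⁻¹ * y = mk (y.1 - x.1) 0 := by
    intro x hx y hy
    obtain ⟨a, d, rfl⟩ := mk_eq x
    obtain ⟨b, d', rfl⟩ := mk_eq y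
    have e1 : d = x0.2 := hsnd _ hx
    have e2 : d' = x0.2 := hsnd _ hy
    rw [e1, e2, mk_inv, mk_mul, mk_inj]
    refine ⟨?_, neg_add_cancel _⟩
    have e3 : (-x0.2).1 = -(x0.2).1 := rfl
    rw [e3, om_neg_left]
    show -a + om x0.2.1 x0.2.2 + b + -om x0.2.1 x0.2.2 = b - a
    abel
  obtain ⟨a, ha⟩ := h (F.map fun y : HG A => Multiplicative.ofAdd y.1) (hF.map _) (by
    intro V hV
    have hV' : (iota : Multiplicative A → HG A) '' V ∈ 𝓝 (1 : HG A) := by
      have := isOpenEmbedding_iota.image_mem_nhds.mpr hV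
      rwa [map_one] at this
    obtain ⟨S', hS', hS2'⟩ := hC _ hV'
    refine ⟨(fun y : HG A => Multiplicative.ofAdd y.1) '' (S ∩ S'),
      image_mem_map (inter_mem hS hS'), ?_⟩
    rintro _ ⟨x, hx, rfl⟩ _ ⟨y, hy, rfl⟩
    obtain ⟨v, hv, hv2⟩ := hS2' x hx.2 y hy.2
    rw [hfst x hx.1 y hy.1] at hv2
    have h5 : mk (Multiplicative.toAdd v) 0 = mk (y.1 - x.1) 0 := hv2
    have h6 := (mk_inj.mp h5).1
    have h7 : (Multiplicative.ofAdd x.1)⁻¹ * Multiplicative.ofAdd y.1 = v := by
      apply Multiplicative.toAdd.injective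
      show -x.1 + y.1 = Multiplicative.toAdd v
      rw [h6]
      abel
    rw [h7]
    exact hv)
  refine ⟨mk (Multiplicative.toAdd a) x0.2, ?_⟩
  intro W hW
  have hW' : W ∈ 𝓝 (((Multiplicative.toAdd a : A), (x0.2 : DD A)) : A × DD A) := hW
  obtain ⟨V, hV, V', hV', hVW⟩ := mem_nhds_prod_iff.mp hW'
  have h8 : (fun y : HG A => Multiplicative.ofAdd y.1) ⁻¹' V ∈ F := ha hV
  filter_upwards [hS, h8] with y hy hyV
  refine hVW ⟨hyV, ?_⟩
  show y.2 ∈ V'
  rw [hsnd y hy]
  exact mem_of_mem_nhds hV'

theorem isClosedEmbedding_iota : IsClosedEmbedding (iota : Multiplicative A → HG A) := by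
  refine ⟨isOpenEmbedding_iota.isEmbedding, ?_⟩
  have h0 : Continuous (fun g : HG A => (g.2 : DD A)) := continuous_snd
  have : range (iota : Multiplicative A → HG A) = (fun g : HG A => (g.2 : DD A)) ⁻¹' {0} := by
    ext g
    obtain ⟨a, d, rfl⟩ := mk_eq g
    constructor
    · rintro ⟨b, hb⟩
      have hb' : mk (Multiplicative.toAdd b) 0 = mk a d := hb
      exact ((mk_inj.mp hb').2).symm
    · intro h
      have h' : d = 0 := h
      exact ⟨Multiplicative.ofAdd a, by rw [h']; rfl⟩
  rw [this]
  exact (isClosed_discrete _).preimage h0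

theorem proLie (h : IsProLie (Multiplicative A)) : IsProLie (HG A) := by
  obtain ⟨hT, hC, hN⟩ := h
  have : T2Space A := hT
  refine ⟨inferInstance, leftComplete hC, fun U hU => ?_⟩
  have hU' : (iota : Multiplicative A → HG A) ⁻¹' U ∈ 𝓝 (1 : Multiplicative A) := by
    apply isOpenEmbedding_iota.continuous.continuousAt
    rwa [map_one]
  obtain ⟨M, hM, hMc, hMU, -, n, f, hf⟩ := hN _ hU'
  let N : Subgroup (HG A) := M.map iota
  have hNn : N.Normal := by
    constructor
    rintro _ ⟨a, ha, rfl⟩ g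
    have h1 : g * iota a * g⁻¹ = iota a := by
      have h2 := central (Multiplicative.toAdd a) g
      have h3 : iota a * g = g * iota a := h2
      rw [← h3, mul_assoc, mul_inv_cancel, mul_one]
    rw [h1]
    exact ⟨a, ha, rfl⟩
  have hNc : IsClosed (N : Set (HG A)) := by
    have : (N : Set (HG A)) = iota '' (M : Set (Multiplicative A)) := rfl
    rw [this]
    exact isClosedEmbedding_iota.isClosedMap _ hMc
  refine ⟨N, hNn, hNc, ?_, ?_⟩
  · rintro _ ⟨a, ha, rfl⟩
    exact hMU ha
  · have hle : M ≤ N.comap iota := fun a ha => ⟨a, ha, rfl⟩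
    let g : Multiplicative A ⧸ M →* HG A ⧸ N := QuotientGroup.map M N iota hle
    have hg : ∀ a : Multiplicative A, g (QuotientGroup.mk a) = QuotientGroup.mk (iota a) :=
      fun a => rfl
    have hgc : Continuous g := by
      have h1 : Continuous fun a : Multiplicative A => (QuotientGroup.mk (iota a) : HG A ⧸ N) :=
        QuotientGroup.continuous_mk.comp isOpenEmbedding_iota.continuous
      exact (QuotientGroup.isQuotientMap_mk M).continuous_iff.mpr h1
    have hgi : Function.Injective g := by
      rw [injective_iff_map_eq_one]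
      intro x hx
      obtain ⟨a, rfl⟩ := QuotientGroup.mk_surjective x
      rw [hg, QuotientGroup.eq_one_iff] at hx
      obtain ⟨b, hb, hb2⟩ := hx
      rw [isOpenEmbedding_iota.injective hb2] at hb
      exact (QuotientGroup.eq_one_iff a).mpr hb
    have hgo : IsOpenMap g := by
      intro V hV
      have h1 : g '' V = QuotientGroup.mk '' (iota '' (QuotientGroup.mk ⁻¹' V :
          Set (Multiplicative A))) := by
        ext z
        constructor
        · rintro ⟨x, hx, rfl⟩
          obtain ⟨a, rfl⟩ := QuotientGroup.mk_surjective x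
          exact ⟨iota a, ⟨a, hx, rfl⟩, rfl⟩
        · rintro ⟨_, ⟨a, ha, rfl⟩, rfl⟩
          exact ⟨QuotientGroup.mk a, ha, rfl⟩
      rw [h1]
      exact QuotientGroup.isOpenMap_coe _ (isOpenEmbedding_iota.isOpenMap _
        (hV.preimage QuotientGroup.continuous_mk))
    have hgo' : IsOpenEmbedding g := IsOpenEmbedding.of_continuous_injective_isOpenMap hgc hgi hgo
    exact ⟨inferInstance, n, g ∘ f, hgo'.comp hf⟩

/-- Every abelian pro-Lie group `A` is, as a topological group, the common kernel `KO(G)` of the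
ordinary representations of a pro-Lie group `G`, in which it is moreover open and central. -/
theorem result (A : Type u) [AddCommGroup A] [TopologicalSpace A] [IsTopologicalAddGroup A]
    (hA : IsProLie (Multiplicative A)) :
    ∃ (G : Type u) (_ : Group G) (_ : TopologicalSpace G) (ι : Multiplicative A →* G),
      IsTopologicalGroup G ∧ IsProLie G ∧
      IsOpenEmbedding ι ∧ ι.range = KO G ∧ ι.range ≤ Subgroup.center G := by
  have : T2Space A := hA.1
  refine ⟨HG A, inferInstance, inferInstance, iota, inferInstance, proLie hA,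
    isOpenEmbedding_iota, range_iota, ?_⟩
  rintro _ ⟨a, rfl⟩
  rw [Subgroup.mem_center_iff]
  intro g
  exact (central _ g).symm

end Pool.Agent.Results.MP_607283_al.ProLieKernels
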